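import Mathlib

set_option autoImplicit false

namespace Pool.Agent.Results.MP_de689f_co.C4Free

open Finset

/-- `β` arises from `α` by one Kempe change: for two colours `a ≠ b` and one connected component `K`
of the subgraph induced by `α⁻¹{a,b}`, the colours `a` and `b` are exchanged on `K`. -/
def KempeChange {V : Type} {G : SimpleGraph V} {m : ℕ} (α β : G.Coloring (Fin m)) : Prop :=
  ∃ a b : Fin m, a ≠ b ∧
    ∃ K : (G.induce {v | α v = a ∨ α v = b}).ConnectedComponent,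
      (∀ v ∈ Subtype.val '' K.supp, β v = Equiv.swap a b (α v)) ∧
      (∀ v ∉ Subtype.val '' K.supp, β v = α v)

/-- Kempe equivalence: a finite sequence of Kempe changes -/
def KempeEquivalent {V : Type} {G : SimpleGraph V} {m : ℕ} (α β : G.Coloring (Fin m)) : Prop :=
  Relation.ReflTransGen KempeChange α β

/-- `G` is `C₄`-free: no induced subgraph of `G` is isomorphic to the cycle on four vertices -/
def IsC4Free {V : Type} (G : SimpleGraph V) : Prop :=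
  IsEmpty (SimpleGraph.cycleGraph 4 ↪g G)

section arithmetic

/-- expansions in base `27` with small digits are unique -/
lemma digits_zero : ∀ (L : ℕ) (c : ℕ → ℤ), (∀ e, |c e| ≤ 4) →
    ∑ e ∈ range L, c e * 27 ^ e = 0 → ∀ e < L, c e = 0 := by
  intro L
  induction L with
  | zero => intro c _ _ e he; omega
  | succ L ih =>
    intro c hc hsum
    rw [Finset.sum_range_succ'] at hsum
    have h1 : ∑ e ∈ range L, c (e + 1) * 27 ^ (e + 1) = 27 * ∑ e ∈ range L, c (e + 1) * 27 ^ e := by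
      rw [Finset.mul_sum]
      apply Finset.sum_congr rfl
      intro e _
      ring
    rw [h1, pow_zero, mul_one] at hsum
    have h0 : c 0 = 0 := by
      have := abs_le.1 (hc 0)
      omega
    rw [h0, add_zero] at hsum
    have h2 : ∑ e ∈ range L, c (e + 1) * 27 ^ e = 0 := by omega
    intro e he
    cases e with
    | zero => exact h0
    | succ e => exact ih (fun e => c (e + 1)) (fun e => hc _) h2 e (by omega)

/-- four signed powers of `27` summing to zero cancel in pairs -/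
lemma four_powers (s₁ s₂ s₃ s₄ : ℤ) (h₁ : s₁ = 1 ∨ s₁ = -1) (h₂ : s₂ = 1 ∨ s₂ = -1)
    (h₃ : s₃ = 1 ∨ s₃ = -1) (h₄ : s₄ = 1 ∨ s₄ = -1) (e₁ e₂ e₃ e₄ : ℕ)
    (h : s₁ * 27 ^ e₁ + s₂ * 27 ^ e₂ + s₃ * 27 ^ e₃ + s₄ * 27 ^ e₄ = 0) :
    (s₁ = -s₂ ∧ e₁ = e₂) ∨ (s₁ = -s₃ ∧ e₁ = e₃) ∨ (s₂ = -s₃ ∧ e₂ = e₃) := by
  let c : ℕ → ℤ := fun e => (if e = e₁ then s₁ else 0) + (if e = e₂ then s₂ else 0) +
    (if e = e₃ then s₃ else 0) + (if e = e₄ then s₄ else 0)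
  have hc : ∀ e, |c e| ≤ 4 := by
    intro e
    rw [abs_le]
    simp only [c]
    constructor <;> split_ifs <;> omega
  let L := e₁ + e₂ + e₃ + e₄ + 1
  have hterm : ∀ (s : ℤ) (f : ℕ), f < L → ∑ e ∈ range L, (if e = f then s else 0) * 27 ^ e =
      s * 27 ^ f := by
    intro s f hf
    rw [Finset.sum_eq_single f]
    · simp
    · intro b _ hb; simp [hb]
    · intro hf'; exact absurd (mem_range.2 hf) hf'
  have hsum : ∑ e ∈ range L, c e * 27 ^ e = 0 := by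
    have : ∀ e, c e * 27 ^ e = (if e = e₁ then s₁ else 0) * 27 ^ e +
        (if e = e₂ then s₂ else 0) * 27 ^ e + (if e = e₃ then s₃ else 0) * 27 ^ e +
        (if e = e₄ then s₄ else 0) * 27 ^ e := by
      intro e; simp only [c]; ring
    simp only [this]
    rw [Finset.sum_add_distrib, Finset.sum_add_distrib, Finset.sum_add_distrib,
      hterm s₁ e₁ (by omega), hterm s₂ e₂ (by omega), hterm s₃ e₃ (by omega),
      hterm s₄ e₄ (by omega)]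
    exact h
  have hz := digits_zero L c hc hsum
  have z1 := hz e₁ (by omega)
  have z2 := hz e₂ (by omega)
  have z3 := hz e₃ (by omega)
  have z4 := hz e₄ (by omega)
  simp only [c] at z1 z2 z3 z4
  clear hz hsum hterm hc h
  by_cases a12 : e₁ = e₂ <;> by_cases a13 : e₁ = e₃ <;> by_cases a23 : e₂ = e₃ <;>
    by_cases a14 : e₁ = e₄ <;> by_cases a24 : e₂ = e₄ <;> by_cases a34 : e₃ = e₄ <;>
    simp_all <;> omega


/-- four signed numbers `r + 27 ^ e` with `r ∈ {1,2}` summing to zero cancel in pairs -/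
lemma four_steps (s₁ s₂ s₃ s₄ : ℤ) (h₁ : s₁ = 1 ∨ s₁ = -1) (h₂ : s₂ = 1 ∨ s₂ = -1)
    (h₃ : s₃ = 1 ∨ s₃ = -1) (h₄ : s₄ = 1 ∨ s₄ = -1) (r₁ r₂ r₃ r₄ : ℤ)
    (k₁ : r₁ = 1 ∨ r₁ = 2) (k₂ : r₂ = 1 ∨ r₂ = 2) (k₃ : r₃ = 1 ∨ r₃ = 2) (k₄ : r₄ = 1 ∨ r₄ = 2)
    (e₁ e₂ e₃ e₄ : ℕ) (l₁ : 1 ≤ e₁) (l₂ : 1 ≤ e₂) (l₃ : 1 ≤ e₃) (l₄ : 1 ≤ e₄)
    (h : s₁ * (r₁ + 27 ^ e₁) + s₂ * (r₂ + 27 ^ e₂) + s₃ * (r₃ + 27 ^ e₃) +
      s₄ * (r₄ + 27 ^ e₄) = 0) :
    (s₁ = -s₂ ∧ e₁ = e₂) ∨ (s₁ = -s₃ ∧ e₁ = e₃) ∨ (s₂ = -s₃ ∧ e₂ = e₃) := by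
  apply four_powers s₁ s₂ s₃ s₄ h₁ h₂ h₃ h₄ e₁ e₂ e₃ e₄
  obtain ⟨f₁, rfl⟩ : ∃ f, e₁ = f + 1 := ⟨e₁ - 1, by omega⟩
  obtain ⟨f₂, rfl⟩ : ∃ f, e₂ = f + 1 := ⟨e₂ - 1, by omega⟩
  obtain ⟨f₃, rfl⟩ : ∃ f, e₃ = f + 1 := ⟨e₃ - 1, by omega⟩
  obtain ⟨f₄, rfl⟩ : ∃ f, e₄ = f + 1 := ⟨e₄ - 1, by omega⟩
  have key : s₁ * r₁ + s₂ * r₂ + s₃ * r₃ + s₄ * r₄ = 0 := by
    have h' : s₁ * r₁ + s₂ * r₂ + s₃ * r₃ + s₄ * r₄ =
        27 * (-(s₁ * 27 ^ f₁ + s₂ * 27 ^ f₂ + s₃ * 27 ^ f₃ + s₄ * 27 ^ f₄)) := by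
      have := h
      ring_nf at this ⊢
      linarith
    generalize (-(s₁ * 27 ^ f₁ + s₂ * 27 ^ f₂ + s₃ * 27 ^ f₃ + s₄ * 27 ^ f₄)) = q at h'
    clear h
    rcases h₁ with rfl | rfl <;> rcases h₂ with rfl | rfl <;> rcases h₃ with rfl | rfl <;>
      rcases h₄ with rfl | rfl <;> omega
  linarith [key, h]

/-- exponents attached to `(i, j, r)` -/
def expo (m i j r : ℕ) : ℕ := 2 * (i * m + j) + r

lemma expo_inj (m i j r i' j' r' : ℕ) (hj : j < m) (hj' : j' < m)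
    (hr : r = 1 ∨ r = 2) (hr' : r' = 1 ∨ r' = 2) (h : expo m i j r = expo m i' j' r') :
    i = i' ∧ j = j' ∧ r = r' := by
  unfold expo at h
  have h1 : i * m + j = i' * m + j' ∧ r = r' := by omega
  obtain ⟨h1, h2⟩ := h1
  have hm : 0 < m := by omega
  have a1 : (i * m + j) / m = i := by
    rw [mul_comm, Nat.mul_add_div hm, Nat.div_eq_of_lt hj, add_zero]
  have a2 : (i' * m + j') / m = i' := by
    rw [mul_comm, Nat.mul_add_div hm, Nat.div_eq_of_lt hj', add_zero]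
  have hi : i = i' := by rw [← a1, ← a2, h1]
  subst hi
  exact ⟨rfl, by omega, h2⟩

lemma expo_le (m i j r : ℕ) (hi : i < m) (hj : j < m) (hr : r = 1 ∨ r = 2) :
    expo m i j r ≤ 2 * (m * m) := by
  unfold expo
  have : (i + 1) * m ≤ m * m := Nat.mul_le_mul_right m hi
  have h2 : (i + 1) * m = i * m + m := by ring
  omega

end arithmetic

section graph

/-- the modulus -/
def md (m : ℕ) : ℕ := 27 ^ (2 * (m * m) + 1)

lemma md_pos (m : ℕ) : 0 < md m := by unfold md; positivity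

instance (m : ℕ) : NeZero (md m) := ⟨(md_pos m).ne'⟩

/-- one of the two steps from the fibre of `i` to the fibre of `j` -/
def stp (m i j r : ℕ) : ℤ := r + 27 ^ expo m i j r

/-- directed adjacency -/
def Dir (m : ℕ) (u v : Fin m × ZMod (md m)) : Prop :=
  u.1 < v.1 ∧ ∃ r : ℕ, (r = 1 ∨ r = 2) ∧ v.2 = u.2 + ((stp m u.1 v.1 r : ℤ) : ZMod (md m))

/-- the graph -/
def gr (m : ℕ) : SimpleGraph (Fin m × ZMod (md m)) where
  Adj u v := Dir m u v ∨ Dir m v u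
  symm := ⟨fun _ _ h => h.symm⟩
  loopless := ⟨fun u h => by
    rcases h with h | h <;> exact lt_irrefl _ h.1⟩

lemma gr_ne {m : ℕ} {u v : Fin m × ZMod (md m)} (h : (gr m).Adj u v) : u.1 ≠ v.1 := by
  rcases h with h | h
  · exact h.1.ne
  · exact h.1.ne'

/-- uniform description of an edge -/
lemma gr_step {m : ℕ} {u v : Fin m × ZMod (md m)} (h : (gr m).Adj u v) :
    ∃ (s : ℤ) (r e : ℕ), (s = 1 ∨ s = -1) ∧ (r = 1 ∨ r = 2) ∧ 1 ≤ e ∧ e ≤ 2 * (m * m) ∧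
      v.2 = u.2 + ((s * (r + 27 ^ e) : ℤ) : ZMod (md m)) ∧
      (s = 1 → e = expo m u.1 v.1 r) ∧ (s = -1 → e = expo m v.1 u.1 r) := by
  rcases h with h | h
  · obtain ⟨h1, r, hr, h2⟩ := h
    refine ⟨1, r, expo m u.1 v.1 r, Or.inl rfl, hr, ?_, expo_le _ _ _ _ u.1.2 v.1.2 hr, ?_,
      fun _ => rfl, fun h => by norm_num at h⟩
    · unfold expo; omega
    · rw [h2, stp, one_mul]
  · obtain ⟨h1, r, hr, h2⟩ := h
    refine ⟨-1, r, expo m v.1 u.1 r, Or.inr rfl, hr, ?_, expo_le _ _ _ _ v.1.2 u.1.2 hr, ?_,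
      fun h => by norm_num at h, fun _ => rfl⟩
    · unfold expo; omega
    · rw [h2, stp]
      push_cast
      ring

lemma abs_bound (s₁ s₂ s₃ s₄ r₁ r₂ r₃ r₄ P₁ P₂ P₃ P₄ P : ℤ) (hs₁ : s₁ = 1 ∨ s₁ = -1)
    (hs₂ : s₂ = 1 ∨ s₂ = -1) (hs₃ : s₃ = 1 ∨ s₃ = -1) (hs₄ : s₄ = 1 ∨ s₄ = -1)
    (k₁ : r₁ = 1 ∨ r₁ = 2) (k₂ : r₂ = 1 ∨ r₂ = 2) (k₃ : r₃ = 1 ∨ r₃ = 2) (k₄ : r₄ = 1 ∨ r₄ = 2)
    (h₁ : 1 ≤ P₁ ∧ P₁ ≤ P) (h₂ : 1 ≤ P₂ ∧ P₂ ≤ P) (h₃ : 1 ≤ P₃ ∧ P₃ ≤ P)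
    (h₄ : 1 ≤ P₄ ∧ P₄ ≤ P) :
    |s₁ * (r₁ + P₁) + s₂ * (r₂ + P₂) + s₃ * (r₃ + P₃) + s₄ * (r₄ + P₄)| < 27 * P := by
  have key : ∀ s r Q : ℤ, (s = 1 ∨ s = -1) → (r = 1 ∨ r = 2) → (1 ≤ Q ∧ Q ≤ P) →
      |s * (r + Q)| ≤ 2 + P := by
    intro s r Q hs hr hQ
    rw [abs_le]
    rcases hs with rfl | rfl <;> constructor <;> omega
  have a1 := key s₁ r₁ P₁ hs₁ k₁ h₁
  have a2 := key s₂ r₂ P₂ hs₂ k₂ h₂
  have a3 := key s₃ r₃ P₃ hs₃ k₃ h₃
  have a4 := key s₄ r₄ P₄ hs₄ k₄ h₄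
  rw [abs_le] at a1 a2 a3 a4
  rw [abs_lt]
  constructor <;> linarith [a1.1, a1.2, a2.1, a2.2, a3.1, a3.2, a4.1, a4.2, h₁.1, h₁.2]

lemma no_four_cycle {m : ℕ} (v₀ v₁ v₂ v₃ : Fin m × ZMod (md m)) (h01 : (gr m).Adj v₀ v₁)
    (h12 : (gr m).Adj v₁ v₂) (h23 : (gr m).Adj v₂ v₃) (h30 : (gr m).Adj v₃ v₀)
    (h02 : v₀ ≠ v₂) (h13 : v₁ ≠ v₃) : False := by
  have n01 := gr_ne h01
  have n12 := gr_ne h12
  have n23 := gr_ne h23
  obtain ⟨s₁, r₁, e₁, hs₁, hr₁, l₁, u₁, q₁, p₁, m₁⟩ := gr_step h01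
  obtain ⟨s₂, r₂, e₂, hs₂, hr₂, l₂, u₂, q₂, p₂, m₂⟩ := gr_step h12
  obtain ⟨s₃, r₃, e₃, hs₃, hr₃, l₃, u₃, q₃, p₃, m₃⟩ := gr_step h23
  obtain ⟨s₄, r₄, e₄, hs₄, hr₄, l₄, u₄, q₄, p₄, m₄⟩ := gr_step h30
  have k₁ : (r₁ : ℤ) = 1 ∨ (r₁ : ℤ) = 2 := by rcases hr₁ with h | h <;> simp [h]
  have k₂ : (r₂ : ℤ) = 1 ∨ (r₂ : ℤ) = 2 := by rcases hr₂ with h | h <;> simp [h]
  have k₃ : (r₃ : ℤ) = 1 ∨ (r₃ : ℤ) = 2 := by rcases hr₃ with h | h <;> simp [h]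
  have k₄ : (r₄ : ℤ) = 1 ∨ (r₄ : ℤ) = 2 := by rcases hr₄ with h | h <;> simp [h]
  have hsum : s₁ * (r₁ + 27 ^ e₁) + s₂ * (r₂ + 27 ^ e₂) + s₃ * (r₃ + 27 ^ e₃) +
      s₄ * (r₄ + 27 ^ e₄) = 0 := by
    have hz : ((s₁ * (r₁ + 27 ^ e₁) + s₂ * (r₂ + 27 ^ e₂) + s₃ * (r₃ + 27 ^ e₃) +
      s₄ * (r₄ + 27 ^ e₄) : ℤ) : ZMod (md m)) = 0 := by
      have h := q₄
      rw [q₃, q₂, q₁] at h
      have h' : v₀.2 + 0 = v₀.2 + (((s₁ * (r₁ + 27 ^ e₁) : ℤ) : ZMod (md m)) +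
        ((s₂ * (r₂ + 27 ^ e₂) : ℤ) : ZMod (md m)) + ((s₃ * (r₃ + 27 ^ e₃) : ℤ) : ZMod (md m)) +
        ((s₄ * (r₄ + 27 ^ e₄) : ℤ) : ZMod (md m))) := by
        rw [add_zero]
        calc v₀.2 = _ := h
          _ = _ := by ring
      have h'' := add_left_cancel h'
      rw [h'']
      push_cast
      ring
    rw [ZMod.intCast_zmod_eq_zero_iff_dvd] at hz
    have hpow : ∀ e : ℕ, e ≤ 2 * (m * m) → (27 : ℤ) ^ e ≤ 27 ^ (2 * (m * m)) := fun e he =>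
      pow_le_pow_right₀ (by norm_num) he
    have hP : (1 : ℤ) ≤ 27 ^ (2 * (m * m)) := one_le_pow₀ (by norm_num)
    have hmd : ((md m : ℕ) : ℤ) = 27 * 27 ^ (2 * (m * m)) := by
      unfold md; push_cast; ring
    have b₁ := hpow e₁ u₁
    have b₂ := hpow e₂ u₂
    have b₃ := hpow e₃ u₃
    have b₄ := hpow e₄ u₄
    have c₁ : (1 : ℤ) ≤ 27 ^ e₁ := one_le_pow₀ (by norm_num)
    have c₂ : (1 : ℤ) ≤ 27 ^ e₂ := one_le_pow₀ (by norm_num)
    have c₃ : (1 : ℤ) ≤ 27 ^ e₃ := one_le_pow₀ (by norm_num)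
    have c₄ : (1 : ℤ) ≤ 27 ^ e₄ := one_le_pow₀ (by norm_num)
    apply Int.eq_zero_of_abs_lt_dvd hz
    rw [hmd]
    exact abs_bound s₁ s₂ s₃ s₄ r₁ r₂ r₃ r₄ (27 ^ e₁) (27 ^ e₂) (27 ^ e₃) (27 ^ e₄) _
      hs₁ hs₂ hs₃ hs₄ k₁ k₂ k₃ k₄ ⟨c₁, b₁⟩ ⟨c₂, b₂⟩ ⟨c₃, b₃⟩ ⟨c₄, b₄⟩
  have hfin := four_steps s₁ s₂ s₃ s₄ hs₁ hs₂ hs₃ hs₄ r₁ r₂ r₃ r₄ k₁ k₂ k₃ k₄
    e₁ e₂ e₃ e₄ l₁ l₂ l₃ l₄ hsum
  have cancel : ∀ (u v w : Fin m × ZMod (md m)) (s s' : ℤ) (r r' e e' : ℕ),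
      (s = 1 ∨ s = -1) → (r = 1 ∨ r = 2) → (r' = 1 ∨ r' = 2) →
      v.2 = u.2 + ((s * (r + 27 ^ e) : ℤ) : ZMod (md m)) →
      w.2 = v.2 + ((s' * (r' + 27 ^ e') : ℤ) : ZMod (md m)) →
      (s = 1 → e = expo m u.1 v.1 r) → (s = -1 → e = expo m v.1 u.1 r) →
      (s' = 1 → e' = expo m v.1 w.1 r') → (s' = -1 → e' = expo m w.1 v.1 r') →
      s = -s' → e = e' → u = w := by
    intro u v w s s' r r' e e' hs hr hr' hv hw a1 a2 a3 a4 hss he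
    have hrr : r = r' ∧ u.1 = w.1 := by
      rcases hs with rfl | rfl
      · have h1 := a1 rfl
        have h2 := a4 (by omega)
        rw [h1, h2] at he
        obtain ⟨t1, t2, t3⟩ := expo_inj _ _ _ _ _ _ _ v.1.2 v.1.2 hr hr' he
        exact ⟨t3, Fin.ext t1⟩
      · have h1 := a2 rfl
        have h2 := a3 (by omega)
        rw [h1, h2] at he
        obtain ⟨t1, t2, t3⟩ := expo_inj _ _ _ _ _ _ _ u.1.2 w.1.2 hr hr' he
        exact ⟨t3, Fin.ext t2⟩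
    obtain ⟨h1, h2⟩ := hrr
    subst h1
    subst he
    subst hss
    apply Prod.ext h2
    rw [hw, hv]
    push_cast
    ring
  rcases hfin with ⟨a, b⟩ | ⟨a, b⟩ | ⟨a, b⟩
  · exact h02 (cancel v₀ v₁ v₂ s₁ s₂ r₁ r₂ e₁ e₂ hs₁ hr₁ hr₂ q₁ q₂ p₁ m₁ p₂ m₂ a b)
  · rcases hs₁ with h | h
    · have t1 := p₁ h
      have t2 := m₃ (by omega)
      rw [t1, t2] at b
      obtain ⟨_, t, _⟩ := expo_inj _ _ _ _ _ _ _ v₁.1.2 v₂.1.2 hr₁ hr₃ b
      exact n12 (Fin.ext t)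
    · have t1 := m₁ h
      have t2 := p₃ (by omega)
      rw [t1, t2] at b
      obtain ⟨t, _, _⟩ := expo_inj _ _ _ _ _ _ _ v₀.1.2 v₃.1.2 hr₁ hr₃ b
      exact n12 (Fin.ext t)
  · exact h13 (cancel v₁ v₂ v₃ s₂ s₃ r₂ r₃ e₂ e₃ hs₂ hr₂ hr₃ q₂ q₃ p₂ m₂ p₃ m₃ a b)

lemma gr_c4free (m : ℕ) : IsC4Free (gr m) := by
  constructor
  intro f
  have hadj : ∀ i j : Fin 4, (SimpleGraph.cycleGraph 4).Adj i j → (gr m).Adj (f i) (f j) :=
    fun i j h => f.map_rel_iff.2 h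
  refine no_four_cycle (f 0) (f 1) (f 2) (f 3) (hadj 0 1 ?_) (hadj 1 2 ?_) (hadj 2 3 ?_)
    (hadj 3 0 ?_) (fun h => ?_) (fun h => ?_)
  · decide
  · decide
  · decide
  · decide
  · have := f.injective h
    simp at this
  · have := f.injective h
    simp at this


lemma adj_of_dir {m : ℕ} {i j : Fin m} (hij : i < j) (x : ZMod (md m)) (r : ℕ)
    (hr : r = 1 ∨ r = 2) : (gr m).Adj (i, x) (j, x + ((stp m i j r : ℤ) : ZMod (md m))) :=
  Or.inl ⟨hij, r, hr, rfl⟩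

lemma unit_diff (m i j : ℕ) :
    IsUnit (((stp m i j 1 - stp m i j 2 : ℤ)) : ZMod (md m)) := by
  rw [ZMod.coe_int_isUnit_iff_isCoprime]
  unfold md
  push_cast
  apply IsCoprime.pow_left
  obtain ⟨a, ha⟩ : ∃ a, expo m i j 1 = a + 1 := ⟨expo m i j 1 - 1, by unfold expo; omega⟩
  obtain ⟨b, hb⟩ : ∃ b, expo m i j 2 = b + 1 := ⟨expo m i j 2 - 1, by unfold expo; omega⟩
  refine ⟨27 ^ a - 27 ^ b, -1, ?_⟩
  unfold stp
  rw [ha, hb]
  push_cast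
  ring

/-- the union of two fibres induces a connected graph -/
lemma fibres_connected {m : ℕ} (i j : Fin m) (hij : i < j) (S : Set (Fin m × ZMod (md m)))
    (hS : ∀ v, v ∈ S ↔ v.1 = i ∨ v.1 = j) : ((gr m).induce S).Preconnected := by
  have hi : ∀ x, (i, x) ∈ S := fun x => (hS _).2 (Or.inl rfl)
  have hj : ∀ x, (j, x) ∈ S := fun x => (hS _).2 (Or.inr rfl)
  set u : ZMod (md m) := ((stp m i j 1 - stp m i j 2 : ℤ) : ZMod (md m)) with hu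
  have hunit : IsUnit u := unit_diff m i j
  have step : ∀ x, ((gr m).induce S).Reachable ⟨(i, x), hi x⟩ ⟨(i, x + u), hi _⟩ := by
    intro x
    have a1 : ((gr m).induce S).Adj ⟨(i, x), hi x⟩
        ⟨(j, x + ((stp m i j 1 : ℤ) : ZMod (md m))), hj _⟩ := adj_of_dir hij x 1 (Or.inl rfl)
    have a2 : ((gr m).induce S).Adj ⟨(i, x + u), hi _⟩
        ⟨(j, x + ((stp m i j 1 : ℤ) : ZMod (md m))), hj _⟩ := by
      have := adj_of_dir hij (x + u) 2 (Or.inr rfl)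
      have e : x + u + ((stp m i j 2 : ℤ) : ZMod (md m)) =
          x + ((stp m i j 1 : ℤ) : ZMod (md m)) := by
        rw [hu]; push_cast; ring
      rw [e] at this
      exact this
    exact a1.reachable.trans a2.reachable.symm
  have steps : ∀ n : ℕ, ((gr m).induce S).Reachable ⟨(i, 0), hi 0⟩ ⟨(i, n * u), hi _⟩ := by
    intro n
    induction n with
    | zero =>
      have e : ((0 : ℕ) : ZMod (md m)) * u = 0 := by simp
      rw [e]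
    | succ n ih =>
      have e : ((n + 1 : ℕ) : ZMod (md m)) * u = n * u + u := by push_cast; ring
      rw [e]
      exact ih.trans (step _)
  have hall : ∀ x, ((gr m).induce S).Reachable ⟨(i, 0), hi 0⟩ ⟨(i, x), hi x⟩ := by
    intro x
    obtain ⟨w, hw⟩ := hunit
    have h := steps (x * (↑(w⁻¹) : ZMod (md m))).val
    have e : ((x * (↑(w⁻¹) : ZMod (md m))).val : ZMod (md m)) * u = x := by
      rw [ZMod.natCast_zmod_val, ← hw, mul_assoc, Units.inv_mul, mul_one]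
    rw [e] at h
    exact h
  have hall' : ∀ v : S, ((gr m).induce S).Reachable ⟨(i, 0), hi 0⟩ v := by
    rintro ⟨⟨l, y⟩, hv⟩
    rcases (hS _).1 hv with h | h
    · obtain rfl : l = i := h
      exact hall y
    · obtain rfl : l = j := h
      refine (hall (y - ((stp m i l 1 : ℤ) : ZMod (md m)))).trans ?_
      apply SimpleGraph.Adj.reachable
      have := adj_of_dir hij (y - ((stp m i l 1 : ℤ) : ZMod (md m))) 1 (Or.inl rfl)
      rw [sub_add_cancel] at this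
      exact this
  intro v w
  exact (hall' v).symm.trans (hall' w)

/-- Kempe changes never leave the colourings constant on fibres -/
lemma kempe_frozen {m : ℕ} {α β : (gr m).Coloring (Fin m)} (h : KempeEquivalent α β)
    (hα : ∃ π : Equiv.Perm (Fin m), ∀ v, α v = π v.1) :
    ∃ π : Equiv.Perm (Fin m), ∀ v, β v = π v.1 := by
  induction h with
  | refl => exact hα
  | @tail γ δ _ hstep ih =>
    obtain ⟨π, hπ⟩ := ih
    obtain ⟨a, b, hab, K, hin, hout⟩ := hstep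
    refine ⟨π.trans (Equiv.swap a b), ?_⟩
    have hconn : ((gr m).induce {v | γ v = a ∨ γ v = b}).Preconnected := by
      have hne : π.symm a ≠ π.symm b := fun h => hab (π.symm.injective h)
      rcases lt_or_gt_of_ne hne with hlt | hlt
      · apply fibres_connected _ _ hlt
        intro v
        rw [Set.mem_ofPred_eq, hπ]
        rw [Equiv.eq_symm_apply, Equiv.eq_symm_apply]
      · apply fibres_connected _ _ hlt
        intro v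
        rw [Set.mem_ofPred_eq, hπ]
        rw [Equiv.eq_symm_apply, Equiv.eq_symm_apply, or_comm]
    intro v
    by_cases hv : γ v = a ∨ γ v = b
    · have hmem : v ∈ Subtype.val '' K.supp := by
        refine ⟨⟨v, hv⟩, ?_, rfl⟩
        rw [SimpleGraph.ConnectedComponent.mem_supp_iff]
        obtain ⟨w, hw⟩ := K.exists_rep
        rw [← hw]
        exact SimpleGraph.ConnectedComponent.sound (hconn _ _)
      rw [hin v hmem, hπ]
      rfl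
    · have hmem : v ∉ Subtype.val '' K.supp := by
        rintro ⟨w, _, rfl⟩
        exact hv w.2
      push Not at hv
      rw [hout v hmem, Equiv.trans_apply, ← hπ, Equiv.swap_apply_of_ne_of_ne hv.1 hv.2]

/-- the frozen colouring -/
def idx (m : ℕ) : (gr m).Coloring (Fin m) :=
  SimpleGraph.Coloring.mk (fun v => v.1) (fun h => gr_ne h)

lemma three_dvd (m : ℕ) : 3 ∣ md m := by
  unfold md
  exact dvd_pow (by norm_num) (by omega)

lemma dir_mod3 {m : ℕ} {u v : Fin m × ZMod (md m)} (h : Dir m u v) :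
    ZMod.castHom (three_dvd m) (ZMod 3) u.2 ≠ ZMod.castHom (three_dvd m) (ZMod 3) v.2 := by
  obtain ⟨_, r, hr, h⟩ := h
  intro heq
  rw [h, map_add, map_intCast] at heq
  have h0 : ((stp m u.1 v.1 r : ℤ) : ZMod 3) = 0 := by
    have := heq
    rw [left_eq_add] at this
    exact this
  obtain ⟨a, ha⟩ : ∃ a, expo m u.1 v.1 r = a + 1 :=
    ⟨expo m u.1 v.1 r - 1, by unfold expo; omega⟩
  unfold stp at h0
  rw [ha, pow_succ] at h0
  push_cast at h0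
  have h27 : (27 : ZMod 3) = 0 := by decide
  rw [h27, mul_zero, add_zero] at h0
  rcases hr with rfl | rfl
  · revert h0; decide
  · revert h0; decide

/-- the `3`-colouring -/
def mod3 (m : ℕ) : (gr m).Coloring (Fin 3) :=
  SimpleGraph.Coloring.mk
    (fun v => (ZMod.castHom (three_dvd m) (ZMod 3) v.2 : ZMod 3))
    (fun {u v} h => by
      rcases h with h | h
      · exact dir_mod3 h
      · exact (dir_mod3 h).symm)

end graph

/-- **Question 1, answered negatively (with `k = 3` for every `c`).** -/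
theorem result : ∀ c : ℕ, ∃ (V : Type) (_ : Fintype V) (G : SimpleGraph V),
    IsC4Free G ∧ G.Colorable 3 ∧
      ∃ α β : G.Coloring (Fin (3 + c)), ¬ KempeEquivalent α β := by
  intro c
  refine ⟨Fin (3 + c) × ZMod (md (3 + c)), inferInstance, gr (3 + c), gr_c4free _, ⟨mod3 _⟩,
    idx _, SimpleGraph.Coloring.mk (fun v => Fin.castAdd c (mod3 _ v))
      (fun h h' => (mod3 _).valid h (Fin.castAdd_injective 3 c h')), ?_⟩
  intro h
  obtain ⟨π, hπ⟩ := kempe_frozen h ⟨Equiv.refl _, fun v => rfl⟩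
  have h0 := hπ (⟨0, by omega⟩, 0)
  have h1 := hπ (⟨1, by omega⟩, 0)
  have h2 : π ⟨0, by omega⟩ = π ⟨1, by omega⟩ := by
    rw [← h0, ← h1]
    rfl
  have := π.injective h2
  simp at this

end Pool.Agent.Results.MP_de689f_co.C4Free
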